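import Pool.Agent.H503R3.NF.Stmts
import Pool.Agent.H503R3.FR.TaskG_helper568

/-! Task Neg: no hyperplane section with `a 1 ≠ 0` is F-injective. -/

set_option autoImplicit false

universe u

open IsLocalRing MvPolynomial

namespace Pool.Agent.H66R3.NF

open H503R3.NF

section Cech

variable {B : Type u} [CommRing B]

theorem res_alg {n : ℕ} (x : Fin n → B) {S' S : Finset (Fin n)} (h : S' ⊆ S) (a : B) :
    res x h (algebraMap B (L x S') a) = algebraMap B (L x S) a :=
  IsLocalization.Away.lift_eq _ _ _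

/-- the full set -/
def Su : {S : Finset (Fin 2) // S.card = 2} := ⟨Finset.univ, by simp⟩

theorem eq_Su (S : {S : Finset (Fin 2) // S.card = 2}) : S = Su := by
  apply Subtype.ext
  exact (Finset.card_eq_iff_eq_univ S.1).1 (by rw [S.2]; simp)

def l0 : {l : Fin 2 // l ∈ Su.1} := ⟨0, Finset.mem_univ _⟩
def l1 : {l : Fin 2 // l ∈ Su.1} := ⟨1, Finset.mem_univ _⟩

theorem prod_del0 (x : Fin 2 → B) : ∏ l ∈ (del Su l0).1, x l = x 1 := by
  have : (del Su l0).1 = {1} := by decide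
  rw [this, Finset.prod_singleton]

theorem prod_del1 (x : Fin 2 → B) : ∏ l ∈ (del Su l1).1, x l = x 0 := by
  have : (del Su l1).1 = {0} := by decide
  rw [this, Finset.prod_singleton]

theorem prod_Su (x : Fin 2 → B) : ∏ l ∈ Su.1, x l = x 0 * x 1 := Fin.prod_univ_two _

theorem sub0 : (del Su l0).1 ⊆ Su.1 := Finset.erase_subset _ _
theorem sub1 : (del Su l1).1 ⊆ Su.1 := Finset.erase_subset _ _

/-- the two restriction maps -/
noncomputable def ρ0 (x : Fin 2 → B) : L x (del Su l0).1 →+* L x Su.1 := res x sub0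
noncomputable def ρ1 (x : Fin 2 → B) : L x (del Su l1).1 →+* L x Su.1 := res x sub1

theorem ρ0_alg (x : Fin 2 → B) (a : B) : ρ0 x (algebraMap B _ a) = algebraMap B (L x Su.1) a :=
  res_alg x sub0 a
theorem ρ1_alg (x : Fin 2 → B) (a : B) : ρ1 x (algebraMap B _ a) = algebraMap B (L x Su.1) a :=
  res_alg x sub1 a

theorem d_Su (x : Fin 2 → B) (h2 : (2 : B) = 0) (b : Cochain x 1) :
    d x 1 b Su = ρ0 x (b (del Su l0)) + ρ1 x (b (del Su l1)) := by
  have h2' : (2 : L x Su.1) = 0 := by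
    have := congrArg (algebraMap B (L x Su.1)) h2
    rwa [map_ofNat, map_zero] at this
  have hm1 : (-1 : L x Su.1) = 1 := by linear_combination -h2'
  have e : (Finset.univ : Finset {l : Fin 2 // l ∈ Su.1}) = {l0, l1} := by decide
  change ∑ l : {l : Fin 2 // l ∈ Su.1}, (-1) ^ (Su.1.filter (fun m => m < l.1)).card *
    res x (Finset.erase_subset l.1 Su.1) (b (del Su l)) = _
  rw [e, Finset.sum_pair (by decide)]
  simp only [hm1, one_pow, one_mul]
  rfl

theorem d_three (x : Fin 2 → B) (c : Cochain x 2) : d x 2 c = 0 := by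
  funext S
  exfalso
  have h1 := S.2
  have h2 := Finset.card_le_univ S.1
  rw [h1] at h2
  simp at h2

/-- the class `z / (x 0 * x 1)` -/
noncomputable def cl (x : Fin 2 → B) (z : B) : Cochain x 2 := fun S =>
  algebraMap B (L x S.1) z * IsLocalization.Away.invSelf (∏ l ∈ S.1, x l)

theorem cl_sq (x : Fin 2 → B) (h2 : (2 : B) = 0) (z al be : B)
    (hz : z ^ 2 = al * x 0 ^ 2 + be * x 1 ^ 2) :
    IsCoboundary x 2 (fun S => cl x z S ^ 2) := by
  classical
  let b : Cochain x 1 := fun S => algebraMap B (L x S.1) (if (0 : Fin 2) ∈ S.1 then be else al) *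
    IsLocalization.Away.invSelf (∏ l ∈ S.1, x l) ^ 2
  refine ⟨b, ?_⟩
  funext S
  obtain rfl := eq_Su S
  rw [d_Su x h2]
  set a := algebraMap B (L x Su.1) with ha
  set I : L x Su.1 := IsLocalization.Away.invSelf (∏ l ∈ Su.1, x l) with hI
  have hI1 : a (x 0) * a (x 1) * I = 1 := by
    rw [← map_mul, ← prod_Su x]
    exact IsLocalization.Away.mul_invSelf _
  have hA : (0 : Fin 2) ∉ (del Su l0).1 := by decide
  have hB : (0 : Fin 2) ∈ (del Su l1).1 := by decide
  set I0 : L x Su.1 := ρ0 x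
    (IsLocalization.Away.invSelf (∏ l ∈ (del Su l0).1, x l)) with hI0
  set J0 : L x Su.1 := ρ1 x
    (IsLocalization.Away.invSelf (∏ l ∈ (del Su l1).1, x l)) with hJ0
  have e1 : a (x 1) * I0 = 1 := by
    rw [← prod_del0 x, ha, ← ρ0_alg x, hI0, ← map_mul]
    exact (congrArg _ (IsLocalization.Away.mul_invSelf _)).trans (map_one _)
  have e2 : a (x 0) * J0 = 1 := by
    rw [← prod_del1 x, ha, ← ρ1_alg x, hJ0, ← map_mul]
    exact (congrArg _ (IsLocalization.Away.mul_invSelf _)).trans (map_one _)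
  have f1 : I0 = a (x 0) * I := by
    calc I0 = I0 * (a (x 0) * a (x 1) * I) := by rw [hI1, mul_one]
      _ = a (x 0) * I * (a (x 1) * I0) := by ring
      _ = a (x 0) * I := by rw [e1, mul_one]
  have f2 : J0 = a (x 1) * I := by
    calc J0 = J0 * (a (x 0) * a (x 1) * I) := by rw [hI1, mul_one]
      _ = a (x 1) * I * (a (x 0) * J0) := by ring
      _ = a (x 1) * I := by rw [e2, mul_one]
  have g1 : ρ0 x (b (del Su l0)) = a al * I0 ^ 2 := by
    change ρ0 x
      (algebraMap B (L x (del Su l0).1) (if (0 : Fin 2) ∈ (del Su l0).1 then be else al) *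
        IsLocalization.Away.invSelf (∏ l ∈ (del Su l0).1, x l) ^ 2) = _
    rw [if_neg hA, map_mul, map_pow]
    congr 1
    exact ρ0_alg x al
  have g2 : ρ1 x (b (del Su l1)) = a be * J0 ^ 2 := by
    change ρ1 x
      (algebraMap B (L x (del Su l1).1) (if (0 : Fin 2) ∈ (del Su l1).1 then be else al) *
        IsLocalization.Away.invSelf (∏ l ∈ (del Su l1).1, x l) ^ 2) = _
    rw [if_pos hB, map_mul, map_pow]
    congr 1
    exact ρ1_alg x be
  rw [g1, g2, f1, f2]
  change _ = (a z * I) ^ 2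
  have hz' := congrArg a hz
  rw [map_add, map_mul, map_mul, map_pow, map_pow, map_pow] at hz'
  rw [mul_pow (a z), hz']
  ring

theorem cl_not (x : Fin 2 → B) (h2 : (2 : B) = 0) (z : B)
    (h : IsCoboundary x 2 (cl x z)) :
    ∃ M : ℕ, z * (x 0 * x 1) ^ M ∈ Ideal.span {x 0 ^ (M + 1), x 1 ^ (M + 1)} := by
  obtain ⟨b, hb⟩ := h
  have hb1 := congrFun hb Su
  rw [d_Su x h2] at hb1
  obtain ⟨m, b1, hb1'⟩ := IsLocalization.Away.surj (∏ l ∈ (del Su l0).1, x l) (b (del Su l0))
  obtain ⟨m', b0, hb0'⟩ := IsLocalization.Away.surj (∏ l ∈ (del Su l1).1, x l) (b (del Su l1))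
  set a := algebraMap B (L x Su.1) with ha
  have k1 : ρ0 x (b (del Su l0)) * a (x 1) ^ m = a b1 := by
    have := congrArg (ρ0 x) hb1'
    rw [map_mul, map_pow, ρ0_alg, ρ0_alg] at this
    rw [← congrArg a (prod_del0 x)]
    exact this
  have k2 : ρ1 x (b (del Su l1)) * a (x 0) ^ m' = a b0 := by
    have := congrArg (ρ1 x) hb0'
    rw [map_mul, map_pow, ρ1_alg, ρ1_alg] at this
    rw [← congrArg a (prod_del1 x)]
    exact this
  set I : L x Su.1 := IsLocalization.Away.invSelf (∏ l ∈ Su.1, x l) with hI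
  have hI1 : a (x 0) * a (x 1) * I = 1 := by
    rw [← map_mul, ← prod_Su x]
    exact IsLocalization.Away.mul_invSelf _
  set R0 := ρ0 x (b (del Su l0)) with hR0
  set R1 := ρ1 x (b (del Su l1)) with hR1
  have hb2 : R0 + R1 = a z * I := hb1
  have hkey : a (z * (x 0 * x 1) ^ (m + m')) =
      a (b1 * x 1 ^ (m' + 1) * x 0 ^ (m + m' + 1) + b0 * x 0 ^ (m + 1) * x 1 ^ (m + m' + 1)) := by
    simp only [map_add, map_mul, map_pow]
    rw [← k1, ← k2]
    calc a z * (a (x 0) * a (x 1)) ^ (m + m') =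
        (a z * I) * (a (x 0) * a (x 1)) ^ (m + m' + 1) := by
          rw [pow_succ]
          linear_combination (-(a z * (a (x 0) * a (x 1)) ^ (m + m'))) * hI1
      _ = (R0 + R1) * (a (x 0) * a (x 1)) ^ (m + m' + 1) := by rw [hb2]
      _ = _ := by ring
  obtain ⟨⟨_, K, rfl⟩, hK⟩ := IsLocalization.exists_of_eq (M := Submonoid.powers (∏ l ∈ Su.1, x l))
    hkey
  refine ⟨m + m' + K, ?_⟩
  rw [Ideal.mem_span_pair]
  refine ⟨b1 * x 1 ^ (m' + 1 + K), b0 * x 0 ^ (m + 1 + K), ?_⟩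
  simp only [prod_Su] at hK
  have e1 : z * (x 0 * x 1) ^ (m + m' + K) = (x 0 * x 1) ^ K * (z * (x 0 * x 1) ^ (m + m')) := by
    ring
  rw [e1, hK]
  ring

end Cech


open H503R3.FR.TG (mem_lift mem_push noeth)

theorem core {A : Type u} {F : Type u} [CommRing A] [IsNoetherianRing A] [Field F] (ev : A →+* F)
    (r1 r3 h z0 : A) (h2 : (2 : A) = 0) (hr1 : ev r1 = 0) (hr3 : ev r3 = 0) (hh : ev h = 0)
    (hz : z0 ^ 2 ∈ Ideal.span {r1 ^ 2, r3 ^ 2, h})
    (hn : ∀ (N : ℕ) (u : A), u * (z0 * (r1 * r3) ^ N) ∈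
      Ideal.span {r1 ^ (N + 1), r3 ^ (N + 1), h} → ev u = 0)
    (hrad : ∀ u, ev u = 0 → ∃ N : ℕ, u ^ N ∈ Ideal.span {r1, r3, h})
    (hht : 3 ≤ (RingHom.ker ev).height) :
    ¬ FInjective 2 (A ⧸ Ideal.span {h}) := by
  intro hF
  set mk := Ideal.Quotient.mk (Ideal.span {h}) with hmk
  have hmkh : mk h = 0 := Ideal.Quotient.eq_zero_iff_mem.2 (Ideal.subset_span rfl)
  have hKp : (RingHom.ker ev).IsPrime := RingHom.ker_isPrime ev
  have hIK : Ideal.span {h} ≤ RingHom.ker ev := by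
    rw [Ideal.span_le, Set.singleton_subset_iff]; exact hh
  set Q : Ideal (A ⧸ Ideal.span {h}) := (RingHom.ker ev).map mk with hQ
  have hQp : Q.IsPrime := Ideal.map_isPrime_of_surjective Ideal.Quotient.mk_surjective
    (by rw [Ideal.mk_ker]; exact hIK)
  have memQ : ∀ u : A, mk u ∈ Q ↔ ev u = 0 := by
    intro u
    constructor
    · intro hu
      rw [hQ, Ideal.mem_map_iff_of_surjective _ Ideal.Quotient.mk_surjective] at hu
      obtain ⟨w, hw, hwu⟩ := hu
      have h3 : w - u ∈ Ideal.span {h} := (Ideal.Quotient.eq).1 hwu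
      have h4 : ev (w - u) = 0 := hIK h3
      have h5 : ev w = 0 := hw
      rw [map_sub, h5, zero_sub, neg_eq_zero] at h4
      exact h4
    · intro hu
      exact Ideal.mem_map_of_mem mk (show u ∈ RingHom.ker ev from hu)
  -- powers
  have radJ : ∀ u : A, ev u = 0 → ∃ N : ℕ, mk u ^ N ∈ Ideal.span {mk r1, mk r3} := by
    intro u hu
    obtain ⟨N, hN⟩ := hrad u hu
    refine ⟨N, ?_⟩
    rw [← map_pow]
    exact mem_push mk r1 r3 h _ hmkh hN
  have hQh2 : 2 ≤ Q.height := by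
    have h5 := Ideal.height_le_height_add_one_of_mem (r := h) (p := RingHom.ker ev) hh
    have h6 : (2 : ℕ∞) + 1 ≤ Q.height + 1 := by
      refine le_trans (le_of_eq ?_) (hht.trans h5)
      norm_num
    exact (ENat.add_le_add_iff_right ENat.one_ne_top).1 h6
  have hJQ : Ideal.span {mk r1, mk r3} ≤ Q := by
    rw [Ideal.span_le]
    rintro _ (rfl | rfl)
    · exact (memQ _).2 hr1
    · exact (memQ _).2 hr3
  have hQh : Q.height ≤ 2 := by
    have hmin : Q ∈ (Ideal.span {mk r1, mk r3}).minimalPrimes := by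
      refine ⟨⟨hQp, hJQ⟩, ?_⟩
      rintro P' ⟨hP', hJP'⟩ _ v hv
      obtain ⟨u, rfl⟩ := Ideal.Quotient.mk_surjective v
      obtain ⟨N, hN⟩ := radJ u ((memQ u).1 hv)
      exact hP'.mem_of_pow_mem N (hJP' hN)
    refine (Ideal.height_le_card_of_mem_minimalPrimes_span (Set.toFinite _) hmin).trans ?_
    have : ({mk r1, mk r3} : Set (A ⧸ Ideal.span {h})).ncard ≤ 2 := Set.ncard_insert_le _ _ |>.trans
      (by rw [Set.ncard_singleton])
    exact_mod_cast this
  have hQ2 : Q.height = 2 := le_antisymm hQh hQh2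
  -- localise
  let B := Localization.AtPrime Q
  let loc : (A ⧸ Ideal.span {h}) →+* B := algebraMap (A ⧸ Ideal.span {h}) B
  let x : Fin 2 → B := ![loc (mk r1), loc (mk r3)]
  have hrange : Set.range x = {loc (mk r1), loc (mk r3)} := by
    simp [x, Matrix.range_cons, Matrix.range_empty, Set.pair_comm]
  have hspan : Ideal.span (Set.range x) = Ideal.map loc (Ideal.span {mk r1, mk r3}) := by
    rw [hrange, Ideal.map_span, Set.image_pair]
  have hmax : Q.map loc = maximalIdeal B := Localization.AtPrime.map_eq_maximalIdeal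
  have hsop : IsSystemOfParameters x := by
    refine ⟨?_, ?_⟩
    · rw [IsLocalization.AtPrime.ringKrullDim_eq_height Q B, hQ2]
      rfl
    · apply le_antisymm
      · have : (maximalIdeal B).IsPrime := (maximalIdeal.isMaximal B).isPrime
        refine (Ideal.IsPrime.radical_le_iff this).2 ?_
        rw [hspan, ← hmax]
        exact Ideal.map_mono hJQ
      · rw [← hmax, Ideal.map_le_iff_le_comap]
        intro v hv
        obtain ⟨u, rfl⟩ := Ideal.Quotient.mk_surjective v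
        obtain ⟨N, hN⟩ := radJ u ((memQ u).1 hv)
        refine ⟨N, ?_⟩
        rw [hspan, ← map_pow]
        exact Ideal.mem_map_of_mem loc hN
  have h2B : (2 : B) = 0 := by
    have h7 : (loc.comp mk) (2 : A) = 0 := by rw [h2, map_zero]
    rwa [map_ofNat] at h7
  have h8 : loc (mk z0) ^ 2 ∈ Ideal.span {loc (mk r1) ^ 2, loc (mk r3) ^ 2} := by
    have := mem_push (loc.comp mk) (r1 ^ 2) (r3 ^ 2) h (z0 ^ 2)
      (by rw [RingHom.comp_apply, hmkh, map_zero]) hz
    simpa only [RingHom.comp_apply, map_pow] using this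
  rw [Ideal.mem_span_pair] at h8
  obtain ⟨al, be, hab⟩ := h8
  have hcob := hF Q 2 x hsop 2 (cl x (loc (mk z0))) (d_three x _)
    (cl_sq x h2B _ al be hab.symm)
  obtain ⟨M, hM⟩ := cl_not x h2B _ hcob
  have hM' : loc (mk (z0 * (r1 * r3) ^ M)) ∈
      Ideal.map loc (Ideal.span {mk r1 ^ (M + 1), mk r3 ^ (M + 1)}) := by
    rw [Ideal.map_span, Set.image_pair, map_pow, map_pow, map_mul, map_mul, map_pow, map_pow,
      map_mul, map_mul]
    exact hM
  rw [IsLocalization.algebraMap_mem_map_algebraMap_iff Q.primeCompl B] at hM'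
  obtain ⟨t, ht, htz⟩ := hM'
  obtain ⟨u, rfl⟩ := Ideal.Quotient.mk_surjective t
  rw [← map_mul, ← map_pow, ← map_pow] at htz
  exact ht ((memQ u).2 (hn M u (mem_lift (r1 ^ (M + 1)) (r3 ^ (M + 1)) h _ htz)))

theorem taskNeg : TaskNeg := by
  intro hA h1 h3 h4 hG2 hKV hZs hMem k _ _ _ a ha
  obtain ⟨q, hq⟩ : ∃ q : k, q ^ 2 * a 1 = a 0 := by
    obtain ⟨q, hq⟩ := IsAlgClosed.exists_pow_nat_eq (a 0 / a 1) (n := 2) (by norm_num)
    exact ⟨q, by rw [hq]; field_simp⟩
  have := noeth k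
  have h20 : (2 : H503R3.FR.R k) = 0 := by
    have : (2 : k) = 0 := CharP.cast_eq_zero k 2 |> (by simpa using ·)
    have h' : algebraMap k (H503R3.FR.R k) (2 : k) = 0 := by rw [this, map_zero]
    rwa [map_ofNat] at h'
  refine core (F := k) (H503R3.FR.evq k q).toRingHom (H503R3.FR.r k 1) (H503R3.FR.r k 3)
    (H503R3.FR.hyp k a)
    (H503R3.FR.r k 4 + algebraMap k (H503R3.FR.R k) q * H503R3.FR.r k 5) h20 ?_ ?_
    (h3 k a q ha hq).1 (h1 k a q ha hq)
    (fun N u hu => hA hG2 h3 hKV hZs hMem k a q ha hq N u hu) (h3 k a q ha hq).2 (h4 k q)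
  · change (MvPolynomial.aeval ![q, 0, 0]) (H503R3.FR.gen k 1) = 0
    simp [H503R3.FR.gen]
  · change (MvPolynomial.aeval ![q, 0, 0]) (H503R3.FR.gen k 3) = 0
    simp [H503R3.FR.gen]

end Pool.Agent.H66R3.NF
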